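import Pool.Agent.H3.BoA

open AddMonoidAlgebra Pool.Agent.H3.Bo

namespace Pool.Agent.Results.MP_847c7e_pr.Full

/-- finitely supported probability measures on G; the product of the algebra is convolution -/
def IsP {G : Type} (μ : AddMonoidAlgebra ℝ G) : Prop :=
  (∀ x, 0 ≤ μ.coeff x) ∧ ∑ y ∈ μ.coeff.support, μ.coeff y = 1

theorem gen {G : Type} [AddCommGroup G] [LinearOrder G] [IsOrderedAddMonoid G]
    (Φ : AddMonoidAlgebra ℝ G → AddMonoidAlgebra ℝ G) (hP : ∀ μ, IsP μ → IsP (Φ μ))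
    (hm : ∀ μ ν, IsP μ → IsP ν → Φ (μ * ν) = Φ μ * Φ ν)
    (hs : ∀ μ, IsP μ → (Φ μ).coeff.support = μ.coeff.support) :
    ∃ F : G →+ ℝ, ∀ μ, IsP μ → ∀ x, (Φ μ).coeff x
      = μ.coeff x * Real.exp (F x) / ∑ y ∈ μ.coeff.support, μ.coeff y * Real.exp (F y) := by
  set m : AddMonoidAlgebra ℝ G →ₐ[ℝ] ℝ := lift ℝ ℝ G 1 with hmd
  have me : ∀ f, m f = ∑ y ∈ f.coeff.support, f.coeff y := by
    intro f; rw [hmd, lift_apply, Finsupp.sum]; simp
  have mp : ∀ f, NN f → f ≠ 0 → 0 < m f := by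
    intro f hf h0
    rw [me]
    refine Finset.sum_pos (fun y hy => lt_of_le_of_ne (hf y) (Finsupp.mem_support_iff.1 hy).symm) ?_
    rw [Finsupp.support_nonempty_iff]
    intro h; apply h0; ext x; simp [h]
  have ip : ∀ f, NN f → f ≠ 0 → IsP ((m f)⁻¹ • f) := by
    intro f hf h0
    refine ⟨fun x => mul_nonneg (inv_pos.2 (mp f hf h0)).le (hf x), ?_⟩
    rw [← me, map_smul, smul_eq_mul, inv_mul_cancel₀ (mp f hf h0).ne']
  have H : Good fun f => Φ ((m f)⁻¹ • f) := by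
    refine ⟨fun f hf h0 => (hP _ (ip f hf h0)).1, fun f hf h0 x => ?_, fun f g hf f0 hg g0 => ?_⟩
    · rw [← Finsupp.notMem_support_iff, hs _ (ip f hf h0), Finsupp.notMem_support_iff,
        coeff_smul_apply, smul_eq_mul, mul_eq_zero, or_iff_right (inv_pos.2 (mp f hf h0)).ne']
    · rw [← hm _ _ (ip f hf f0) (ip g hg g0), map_mul, smul_mul_smul_comm, mul_inv]
  obtain ⟨F, hF⟩ := main H
  refine ⟨F, fun μ hμ => ?_⟩
  have hne : μ.coeff.support.Nonempty := by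
    rw [Finset.nonempty_iff_ne_empty]
    intro h
    have := hμ.2
    rw [h] at this; simp at this
  set a := μ.coeff.support.min' hne with ha
  have a0 : μ.coeff a ≠ 0 := Finsupp.mem_support_iff.1 (Finset.min'_mem _ hne)
  have ap : 0 < μ.coeff a := lt_of_le_of_ne (hμ.1 a) a0.symm
  set S : AddMonoidAlgebra ℝ G := single (-a) (μ.coeff a)⁻¹ with hS
  have nS : NN S := NN_single _ (inv_pos.2 ap).le
  have Sa : S.coeff (-a) ≠ 0 := by rw [hS, cs, if_pos rfl]; exact inv_ne_zero a0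
  have cA : ∀ x, (S * μ).coeff x = (μ.coeff a)⁻¹ * μ.coeff (a + x) := by
    intro x; rw [hS, coeff_single_mul_apply, neg_neg]
  have k := hF (S * μ) (nS.mul hμ.1) (by rw [cA, add_zero, inv_mul_cancel₀ a0]) (fun x hx => by
    rw [cA, (Finsupp.notMem_support_iff (a := a + x)).1 fun h => ?_, mul_zero]
    exact absurd (Finset.min'_le _ _ h) (not_le.2 (add_lt_of_neg_right a hx)))
  have e := H.mul S μ nS (ne0 Sa) hμ.1 (ne0 a0)
  have m1 : m μ = 1 := (me μ).trans hμ.2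
  obtain ⟨c, hc, e'⟩ : ∃ c : ℝ, c ≠ 0 ∧ Φ ((m S)⁻¹ • S) = single (-a) c := by
    refine ⟨_, mt (H.supp S nS (ne0 Sa) (-a)).1 Sa, ?_⟩
    ext x
    rw [cs]
    split_ifs with h
    · rw [h]
    · exact (H.supp S nS (ne0 Sa) x).2 (by rw [hS, cs, if_neg h])
  simp only [e', m1, inv_one, one_smul] at e
  simp only [e, coeff_single_mul_apply, neg_neg, add_zero, cA] at k
  obtain ⟨K, hK⟩ : ∃ K : ℝ, ∀ y, (Φ μ).coeff y = K * (μ.coeff y * Real.exp (F y)) := by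
    refine ⟨(Φ μ).coeff a * (μ.coeff a)⁻¹ * Real.exp (-F a), fun y => ?_⟩
    have := k (y - a)
    rw [add_sub_cancel, map_sub, sub_eq_add_neg (F y), Real.exp_add] at this
    apply mul_left_cancel₀ hc
    rw [this]; ring
  have s1 := (hP μ hμ).2
  rw [hs μ hμ] at s1
  simp only [hK] at s1
  rw [← Finset.mul_sum] at s1
  intro x
  rw [hK, eq_div_iff (right_ne_zero_of_mul_eq_one s1)]
  linear_combination (μ.coeff x * Real.exp (F x)) * s1

theorem result (d : ℕ) (Φ : AddMonoidAlgebra ℝ (Fin d → ℤ) → AddMonoidAlgebra ℝ (Fin d → ℤ))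
    (hP : ∀ μ, IsP μ → IsP (Φ μ))
    (hm : ∀ μ ν, IsP μ → IsP ν → Φ (μ * ν) = Φ μ * Φ ν)
    (hs : ∀ μ, IsP μ → (Φ μ).coeff.support = μ.coeff.support) :
    ∃ β : Fin d → ℝ, ∀ μ, IsP μ → ∀ x, (Φ μ).coeff x
      = μ.coeff x * Real.exp (-∑ i, β i * x i)
        / ∑ y ∈ μ.coeff.support, μ.coeff y * Real.exp (-∑ i, β i * y i) := by
  obtain ⟨F, hF⟩ : ∃ F : (Fin d → ℤ) →+ ℝ, ∀ μ, IsP μ → ∀ x, (Φ μ).coeff x
      = μ.coeff x * Real.exp (F x) / ∑ y ∈ μ.coeff.support, μ.coeff y * Real.exp (F y) :=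
    gen (G := Lex (Fin d → ℤ)) Φ hP hm hs
  have e : ∀ x : Fin d → ℤ, F x = -∑ i, -F (Pi.single i 1) * x i := by
    intro x
    nth_rewrite 1 [← Finset.univ_sum_single x]
    rw [map_sum, ← Finset.sum_neg_distrib]
    refine Finset.sum_congr rfl fun i _ => ?_
    have : (Pi.single i (x i) : Fin d → ℤ) = x i • Pi.single i 1 := by
      rw [← Pi.single_smul]; simp
    rw [this, map_zsmul, zsmul_eq_mul]; ring
  refine ⟨fun i => -F (Pi.single i 1), fun μ hμ x => ?_⟩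
  simp only [← e]
  exact hF μ hμ x

end Pool.Agent.Results.MP_847c7e_pr.Full
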